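import Pool.Agent.H43.SAK.Stmts

/-! Module FIN of project SAK (helper95): the final inequality. -/

namespace Pool.Agent.H43.SAK

open Finset

/-- the change of variables -/
private def finG {d : ℕ} (p m : ℕ) (a : (Fin d → ℤ) × (Fin d → ℤ)) : (Fin d → ℤ) × (Fin d → ℤ) :=
  (a.1 - a.2, ((p : ℤ) ^ m) • a.2)

private theorem finG_inj {d : ℕ} {p : ℕ} (hp : 0 < p) (m : ℕ) : Function.Injective (finG (d := d) p m) := by
  intro a b h
  have hpz : ((p : ℤ) ^ m) ≠ 0 := pow_ne_zero _ (by exact_mod_cast hp.ne')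
  have h1 : a.1 - a.2 = b.1 - b.2 := congrArg Prod.fst h
  have h2 : ((p : ℤ) ^ m) • a.2 = ((p : ℤ) ^ m) • b.2 := congrArg Prod.snd h
  have h3 : a.2 = b.2 := by
    funext i
    have := congrFun h2 i
    simp only [Pi.smul_apply, smul_eq_mul] at this
    exact mul_left_cancel₀ hpz this
  rw [h3] at h1
  exact Prod.ext (sub_left_injective h1) h3

theorem fin (hs : SetSt) (hf : FblSt) (ht : TreeSt) : FinSt := by
  intro ε hε
  obtain ⟨p₀, h0⟩ := hs ε hε
  refine ⟨p₀, fun p hp hpp m d A B J hB hBr => ?_⟩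
  obtain ⟨C, hC, hSI⟩ := h0 p hp hpp
  have : Fact p.Prime := ⟨hpp⟩
  have hp0 : (0 : ℝ) < p := by exact_mod_cast hpp.pos
  have hc : 0 < (1 + ε) / (p : ℝ) := div_pos (by linarith) hp0
  have hFI := hf p ((1 + ε) / p) C hc hC hSI
  have hpz : (0 : ℤ) < (p : ℤ) ^ m := pow_pos (by exact_mod_cast hpp.pos) _
  classical
  set A' := A.image (finG p m) with hA'
  set B' : ℕ → ℕ := fun j => if j < m then 1 else B (j - m) with hB'
  have hBr' : Br p A' B' := by
    unfold Br
    intro j a' ha'
    rw [hA', mem_image] at ha'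
    obtain ⟨a, ha, rfl⟩ := ha'
    by_cases hj : j < m
    · rw [show B' j = 1 by rw [hB']; simp [hj]]
      rw [Finset.card_le_one]
      have key : ∀ v ∈ ((A'.filter (fun b => cg ((p : ℤ) ^ (j + 1)) b.1 (finG p m a).1 ∧
          cg ((p : ℤ) ^ j) b.2 (finG p m a).2)).image
            (fun b => fun i => b.2 i % (p : ℤ) ^ (j + 1))), v = fun _ => 0 := by
        intro v hv
        rw [mem_image] at hv
        obtain ⟨b, hb, rfl⟩ := hv
        rw [mem_filter, hA', mem_image] at hb
        obtain ⟨⟨b0, hb0, rfl⟩, _⟩ := hb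
        funext i
        show ((p : ℤ) ^ m * b0.2 i) % (p : ℤ) ^ (j + 1) = 0
        apply Int.emod_eq_zero_of_dvd
        exact dvd_mul_of_dvd_left (pow_dvd_pow _ hj) _
      intro v hv w hw
      rw [key v (by convert hv), key w (by convert hw)]
    · obtain ⟨l, rfl⟩ : ∃ l, j = m + l := ⟨j - m, by omega⟩
      rw [show B' (m + l) = B l by rw [hB']; simp]
      refine le_trans ?_ (hBr l a ha)
      refine le_trans (card_le_card (t := ((A.filter (fun b : (Fin d → ℤ) × (Fin d → ℤ) =>
          (∀ i, (p : ℤ) ^ (l + m + 1) ∣ (b.1 i - b.2 i) - (a.1 i - a.2 i)) ∧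
            ∀ i, (p : ℤ) ^ l ∣ b.2 i - a.2 i)).image
        (fun b => fun i => b.2 i % (p : ℤ) ^ (l + 1))).image (fun v i => (p : ℤ) ^ m * v i)) ?_)
        card_image_le
      intro v hv
      rw [mem_image] at hv
      obtain ⟨b, hb, rfl⟩ := hv
      rw [mem_filter, hA', mem_image] at hb
      obtain ⟨⟨b0, hb0, rfl⟩, hb1, hb2⟩ := hb
      rw [mem_image]
      refine ⟨fun i => b0.2 i % (p : ℤ) ^ (l + 1), ?_, ?_⟩
      · rw [mem_image]
        refine ⟨b0, ?_, rfl⟩
        rw [mem_filter]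
        refine ⟨hb0, fun i => ?_, fun i => ?_⟩
        · have h1 := hb1 i
          have e : l + m + 1 = m + l + 1 := by ring
          rw [e]
          exact h1
        · have h1 : (p : ℤ) ^ (m + l) ∣ (p : ℤ) ^ m * b0.2 i - (p : ℤ) ^ m * a.2 i := hb2 i
          rw [← mul_sub, pow_add] at h1
          exact Int.dvd_of_mul_dvd_mul_left hpz.ne' h1
      · funext i
        show (p : ℤ) ^ m * (b0.2 i % (p : ℤ) ^ (l + 1)) = ((p : ℤ) ^ m * b0.2 i) % (p : ℤ) ^ (m + l + 1)
        have e : m + l + 1 = m + (l + 1) := by ring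
        rw [e, pow_add (p : ℤ) m (l + 1), Int.mul_emod_mul_of_pos _ _ hpz]
  have hT := ht p ((1 + ε) / p) hc hFI d A' B' (m + J) (by
    intro j hj
    rw [hB']
    simp only
    rw [if_neg (by omega)]
    exact hB _ (by omega)) hBr'
  have hcard : A'.card = A.card := card_image_of_injective _ (finG_inj hpp.pos m)
  have hprod : (∏ j ∈ range (m + J), (B' j : ℝ)) = ∏ j ∈ range J, (B j : ℝ) := by
    rw [prod_range_add]
    have h1 : ∏ j ∈ range m, (B' j : ℝ) = 1 := by
      apply prod_eq_one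
      intro j hj
      rw [mem_range] at hj
      simp [hB', hj]
    rw [h1, one_mul]
    refine prod_congr rfl fun j _ => ?_
    simp [hB']
  rw [hcard, hprod] at hT
  refine hT.trans ?_
  apply mul_le_mul_of_nonneg_left _ (prod_nonneg fun j _ => Nat.cast_nonneg _)
  set N : ℝ := max ((A.image (fun a => a.2)).card : ℝ)
        (((Finset.Icc 1 (p - 1)).sup (fun s : ℕ =>
          (A.image (fun a => a.1 + ((s : ℤ) * (p : ℤ) ^ m - 1) • a.2)).card) : ℕ) : ℝ) with hN
  have hN0 : 0 ≤ N := le_max_of_le_left (Nat.cast_nonneg _)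
  have hle : ∀ t : ZMod p, ((A'.image (pr p t)).card : ℝ) ≤ N := by
    intro t
    by_cases h0 : t = 0
    · refine le_trans ?_ (le_max_left _ _)
      have h1 : A'.image (pr p t) = (A.image (fun a => a.2)).image (fun v => ((p : ℤ) ^ m) • v) := by
        rw [hA', image_image, image_image]
        apply image_congr
        intro a _
        show pr p t (finG p m a) = ((p : ℤ) ^ m) • a.2
        unfold pr
        rw [if_pos h0]
        rfl
      rw [h1]
      exact_mod_cast card_image_le
    · refine le_trans ?_ (le_max_right _ _)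
      have hs1 : 1 ≤ (t⁻¹).val := by
        rw [Nat.one_le_iff_ne_zero]
        intro h
        rw [ZMod.val_eq_zero] at h
        exact h0 (inv_eq_zero.1 h)
      have hs2 : (t⁻¹).val ≤ p - 1 := by
        have := ZMod.val_lt (t⁻¹)
        omega
      have h1 : A'.image (pr p t) = A.image (fun a => a.1 + ((((t⁻¹).val : ℕ) : ℤ) * (p : ℤ) ^ m - 1) • a.2) := by
        rw [hA', image_image]
        apply image_congr
        intro a _
        show pr p t (finG p m a) = _
        unfold pr
        rw [if_neg h0]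
        show a.1 - a.2 + (((t⁻¹).val : ℕ) : ℤ) • (((p : ℤ) ^ m) • a.2) = _
        module
      rw [h1]
      exact_mod_cast le_sup (f := fun s : ℕ =>
        (A.image (fun a => a.1 + ((s : ℤ) * (p : ℤ) ^ m - 1) • a.2)).card)
        (mem_Icc.2 ⟨hs1, hs2⟩)
  calc ∏ t : ZMod p, ((A'.image (pr p t)).card : ℝ) ^ ((1 + ε) / (p : ℝ)) ≤
        ∏ _t : ZMod p, N ^ ((1 + ε) / (p : ℝ)) :=
        prod_le_prod (fun t _ => by positivity) fun t _ =>
          Real.rpow_le_rpow (Nat.cast_nonneg _) (hle t) hc.le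
    _ = N ^ (1 + ε) := by
      rw [prod_const, card_univ, ZMod.card, ← Real.rpow_natCast, ← Real.rpow_mul hN0,
        div_mul_cancel₀ _ hp0.ne']

end Pool.Agent.H43.SAK
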